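import Mathlib

/-!
# MP_0c20fd : the 2-summing norm need not be smooth at an invertible operator

On real or complex `ℓ₁²` let `T = [[1, -1], [1, 1]]`.  Then `π₂(T) = ‖T‖ = 2`, and the functionals
`S ↦ ⟨(1,1), S e₀⟩`, `S ↦ ⟨(-1,1), S e₁⟩` both have norm one on `Π₂` and take the value `2` at `T`.
-/

namespace Pool.Agent.Results.MP_0c20fd_an.NonSmoothInvertible

open scoped ENNReal

/-- The weak 2-norm `sup_{‖f‖ ≤ 1} (∑ |f (x i)|²)^{1/2}` of a finite family. -/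
noncomputable def weak2 (𝕜 : Type) {X : Type} [RCLike 𝕜] [NormedAddCommGroup X] [NormedSpace 𝕜 X]
    {m : ℕ} (x : Fin m → X) : ℝ :=
  ⨆ f : {f : X →L[𝕜] 𝕜 // ‖f‖ ≤ 1}, Real.sqrt (∑ i, ‖f.1 (x i)‖ ^ 2)

/-- The constants `C ≥ 0` admissible in the definition of the 2-summing norm. -/
def Admissible {𝕜 X : Type} [RCLike 𝕜] [NormedAddCommGroup X] [NormedSpace 𝕜 X]
    (T : X →ₗ[𝕜] X) : Set ℝ :=
  {C : ℝ | 0 ≤ C ∧ ∀ (m : ℕ) (x : Fin m → X),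
    Real.sqrt (∑ i, ‖T (x i)‖ ^ 2) ≤ C * weak2 𝕜 x}

/-- The 2-summing norm of `T`: the least admissible constant. -/
noncomputable def pi2 {𝕜 X : Type} [RCLike 𝕜] [NormedAddCommGroup X] [NormedSpace 𝕜 X]
    (T : X →ₗ[𝕜] X) : ℝ := sInf (Admissible T)

/-- The functional `φ` on the space of operators has norm one with respect to `π₂`:
the supremum of `|φ S|` over all `S` with `π₂ S ≤ 1` equals `1`. -/
def DualNormOne {𝕜 X : Type} [RCLike 𝕜] [NormedAddCommGroup X] [NormedSpace 𝕜 X]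
    (φ : (X →ₗ[𝕜] X) →ₗ[𝕜] 𝕜) : Prop :=
  IsLUB ((fun S : X →ₗ[𝕜] X => ‖φ S‖) '' {S | pi2 S ≤ 1}) 1

section gen

variable {𝕜 X : Type} [RCLike 𝕜] [NormedAddCommGroup X] [NormedSpace 𝕜 X]

theorem bdd_weak2 {m : ℕ} (x : Fin m → X) :
    BddAbove (Set.range fun f : {f : X →L[𝕜] 𝕜 // ‖f‖ ≤ 1} =>
      Real.sqrt (∑ i, ‖f.1 (x i)‖ ^ 2)) := by
  refine ⟨Real.sqrt (∑ i, ‖x i‖ ^ 2), ?_⟩
  rintro _ ⟨f, rfl⟩
  refine Real.sqrt_le_sqrt (Finset.sum_le_sum fun i _ => ?_)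
  have h : ‖f.1 (x i)‖ ≤ ‖x i‖ := by
    calc ‖f.1 (x i)‖ ≤ ‖f.1‖ * ‖x i‖ := f.1.le_opNorm _
      _ ≤ 1 * ‖x i‖ := by gcongr; exact f.2
      _ = ‖x i‖ := one_mul _
  gcongr

theorem weak2_nonneg {m : ℕ} (x : Fin m → X) : 0 ≤ weak2 𝕜 x :=
  Real.iSup_nonneg fun _ => Real.sqrt_nonneg _

theorem le_weak2 {m : ℕ} (x : Fin m → X) (f : X →L[𝕜] 𝕜) (hf : ‖f‖ ≤ 1) :
    ∑ i, ‖f (x i)‖ ^ 2 ≤ weak2 𝕜 x ^ 2 := by
  have h := le_ciSup (bdd_weak2 (𝕜 := 𝕜) x) ⟨f, hf⟩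
  have h2 : Real.sqrt (∑ i, ‖f (x i)‖ ^ 2) ≤ weak2 𝕜 x := h
  exact (Real.sqrt_le_left (weak2_nonneg x)).1 h2

theorem weak2_one_le (x : X) : weak2 𝕜 (fun _ : Fin 1 => x) ≤ ‖x‖ := by
  have : Nonempty {f : X →L[𝕜] 𝕜 // ‖f‖ ≤ 1} := ⟨⟨0, by simp⟩⟩
  refine ciSup_le fun f => ?_
  simp only [Finset.univ_unique, Finset.sum_const, Finset.card_singleton, one_smul]
  rw [Real.sqrt_sq (norm_nonneg _)]
  calc ‖f.1 x‖ ≤ ‖f.1‖ * ‖x‖ := f.1.le_opNorm _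
    _ ≤ 1 * ‖x‖ := by gcongr; exact f.2
    _ = ‖x‖ := one_mul _

theorem norm_apply_le_of_mem {T : X →ₗ[𝕜] X} {C : ℝ} (hC : C ∈ Admissible T) (x : X) :
    ‖T x‖ ≤ C * ‖x‖ := by
  have h := hC.2 1 (fun _ => x)
  simp only [Finset.univ_unique, Finset.sum_const, Finset.card_singleton, one_smul] at h
  rw [Real.sqrt_sq (norm_nonneg _)] at h
  exact h.trans (mul_le_mul_of_nonneg_left (weak2_one_le x) hC.1)

theorem pi2_le {T : X →ₗ[𝕜] X} {C : ℝ} (hC : C ∈ Admissible T) : pi2 T ≤ C :=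
  csInf_le ⟨0, fun _ h => h.1⟩ hC

theorem norm_apply_le_pi2 {T : X →ₗ[𝕜] X} (hT : (Admissible T).Nonempty) (x : X)
    (hx : ‖x‖ ≤ 1) : ‖T x‖ ≤ pi2 T := by
  refine le_csInf hT fun C hC => ?_
  calc ‖T x‖ ≤ C * ‖x‖ := norm_apply_le_of_mem hC x
    _ ≤ C * 1 := mul_le_mul_of_nonneg_left hx hC.1
    _ = C := mul_one _

end gen

section example_

variable (𝕜 : Type) [RCLike 𝕜]

/-- The two-dimensional space `ℓ₁²` over `𝕜`. -/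
abbrev E := PiLp 1 (fun _ : Fin 2 => 𝕜)

theorem norm_E (x : E 𝕜) : ‖x‖ = ‖x 0‖ + ‖x 1‖ := by
  rw [PiLp.norm_eq_of_L1, Fin.sum_univ_two]

/-- The functional `x ↦ x 0 + x 1`. -/
noncomputable def fp : E 𝕜 →L[𝕜] 𝕜 :=
  LinearMap.mkContinuous
    { toFun := fun x => x 0 + x 1
      map_add' := fun x y => by simp only [PiLp.add_apply]; ring
      map_smul' := fun c x => by simp only [PiLp.smul_apply, smul_eq_mul, RingHom.id_apply]; ring }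
    1 (fun x => by
      rw [one_mul, norm_E]; exact norm_add_le _ _)

/-- The functional `x ↦ x 0 - x 1`. -/
noncomputable def fm : E 𝕜 →L[𝕜] 𝕜 :=
  LinearMap.mkContinuous
    { toFun := fun x => x 0 - x 1
      map_add' := fun x y => by simp only [PiLp.add_apply]; ring
      map_smul' := fun c x => by simp only [PiLp.smul_apply, smul_eq_mul, RingHom.id_apply]; ring }
    1 (fun x => by
      rw [one_mul, norm_E]; exact norm_sub_le _ _)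

theorem fp_apply (x : E 𝕜) : fp 𝕜 x = x 0 + x 1 := rfl
theorem fm_apply (x : E 𝕜) : fm 𝕜 x = x 0 - x 1 := rfl
theorem norm_fp : ‖fp 𝕜‖ ≤ 1 := LinearMap.mkContinuous_norm_le _ zero_le_one _
theorem norm_fm : ‖fm 𝕜‖ ≤ 1 := LinearMap.mkContinuous_norm_le _ zero_le_one _

variable {𝕜}

theorem par (a b : 𝕜) : (‖a + b‖ ^ 2 + ‖a - b‖ ^ 2) / 2 = ‖a‖ ^ 2 + ‖b‖ ^ 2 := by
  have h := parallelogram_law_with_norm 𝕜 a b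
  nlinarith [h]

theorem mem_adm (S : E 𝕜 →ₗ[𝕜] E 𝕜) (K : ℝ) (hK : 0 ≤ K)
    (h : ∀ x : E 𝕜, ‖S x‖ ^ 2 ≤ K ^ 2 * (‖x 0‖ ^ 2 + ‖x 1‖ ^ 2)) : K ∈ Admissible S := by
  refine ⟨hK, fun m x => ?_⟩
  have h1 := le_weak2 (𝕜 := 𝕜) x (fp 𝕜) (norm_fp 𝕜)
  have h2 := le_weak2 (𝕜 := 𝕜) x (fm 𝕜) (norm_fm 𝕜)
  have h3 : ∑ i, ‖S (x i)‖ ^ 2 ≤ (K * weak2 𝕜 x) ^ 2 := by
    calc ∑ i, ‖S (x i)‖ ^ 2
        ≤ ∑ i, K ^ 2 * ((‖fp 𝕜 (x i)‖ ^ 2 + ‖fm 𝕜 (x i)‖ ^ 2) / 2) := by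
          refine Finset.sum_le_sum fun i _ => ?_
          rw [fp_apply, fm_apply, par]
          exact h (x i)
      _ = K ^ 2 * ((∑ i, ‖fp 𝕜 (x i)‖ ^ 2 + ∑ i, ‖fm 𝕜 (x i)‖ ^ 2) / 2) := by
          rw [← Finset.mul_sum, ← Finset.sum_div, Finset.sum_add_distrib]
      _ ≤ K ^ 2 * ((weak2 𝕜 x ^ 2 + weak2 𝕜 x ^ 2) / 2) := by gcongr
      _ = (K * weak2 𝕜 x) ^ 2 := by ring
  calc Real.sqrt (∑ i, ‖S (x i)‖ ^ 2) ≤ Real.sqrt ((K * weak2 𝕜 x) ^ 2) :=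
        Real.sqrt_le_sqrt h3
    _ = K * weak2 𝕜 x := Real.sqrt_sq (mul_nonneg hK (weak2_nonneg x))

theorem adm_nonempty (S : E 𝕜 →ₗ[𝕜] E 𝕜) : (Admissible S).Nonempty := by
  obtain ⟨M, hM⟩ : ∃ M : ℝ, ∀ x, ‖S x‖ ≤ M * ‖x‖ :=
    ⟨‖LinearMap.toContinuousLinearMap S‖, fun x =>
      (LinearMap.toContinuousLinearMap S).le_opNorm x⟩
  have hM0 : ∀ x, ‖S x‖ ≤ |M| * ‖x‖ := fun x =>
    (hM x).trans (mul_le_mul_of_nonneg_right (le_abs_self M) (norm_nonneg _))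
  refine ⟨2 * |M|, mem_adm S (2 * |M|) (by positivity) fun x => ?_⟩
  have h1 := hM0 x
  have h2 : ‖S x‖ ^ 2 ≤ (|M| * ‖x‖) ^ 2 := by gcongr
  refine h2.trans ?_
  rw [norm_E]
  have h3 : (‖x 0‖ + ‖x 1‖) ^ 2 ≤ 4 * (‖x 0‖ ^ 2 + ‖x 1‖ ^ 2) := by
    nlinarith [sq_nonneg (‖x 0‖ - ‖x 1‖), sq_nonneg ‖x 0‖, sq_nonneg ‖x 1‖]
  calc (|M| * (‖x 0‖ + ‖x 1‖)) ^ 2 = |M| ^ 2 * (‖x 0‖ + ‖x 1‖) ^ 2 := by ring
    _ ≤ |M| ^ 2 * (4 * (‖x 0‖ ^ 2 + ‖x 1‖ ^ 2)) := by gcongr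
    _ = (2 * |M|) ^ 2 * (‖x 0‖ ^ 2 + ‖x 1‖ ^ 2) := by ring

variable (𝕜)

/-- The operator `T (x₀, x₁) = (x₀ - x₁, x₀ + x₁)`. -/
noncomputable def T : E 𝕜 →ₗ[𝕜] E 𝕜 where
  toFun x := WithLp.toLp 1 ![x 0 - x 1, x 0 + x 1]
  map_add' x y := by
    ext i; fin_cases i <;> simp <;> ring
  map_smul' c x := by
    ext i; fin_cases i <;> simp <;> ring

theorem T_zero (x : E 𝕜) : T 𝕜 x 0 = x 0 - x 1 := rfl
theorem T_one (x : E 𝕜) : T 𝕜 x 1 = x 0 + x 1 := rfl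

/-- The inverse of `T`. -/
noncomputable def Tinv : E 𝕜 →ₗ[𝕜] E 𝕜 where
  toFun x := WithLp.toLp 1 ![(x 0 + x 1) / 2, (x 1 - x 0) / 2]
  map_add' x y := by
    ext i; fin_cases i <;> simp <;> ring
  map_smul' c x := by
    ext i; fin_cases i <;> simp <;> ring

theorem Tinv_zero (x : E 𝕜) : Tinv 𝕜 x 0 = (x 0 + x 1) / 2 := rfl
theorem Tinv_one (x : E 𝕜) : Tinv 𝕜 x 1 = (x 1 - x 0) / 2 := rfl

theorem T_bijective : Function.Bijective (T 𝕜) := by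
  refine Function.bijective_iff_has_inverse.2 ⟨Tinv 𝕜, fun x => ?_, fun x => ?_⟩
  · ext i; fin_cases i
    · change Tinv 𝕜 (T 𝕜 x) 0 = x 0
      rw [Tinv_zero, T_zero, T_one]; ring
    · change Tinv 𝕜 (T 𝕜 x) 1 = x 1
      rw [Tinv_one, T_zero, T_one]; ring
  · ext i; fin_cases i
    · change T 𝕜 (Tinv 𝕜 x) 0 = x 0
      rw [T_zero, Tinv_zero, Tinv_one]; ring
    · change T 𝕜 (Tinv 𝕜 x) 1 = x 1
      rw [T_one, Tinv_zero, Tinv_one]; ring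

theorem norm_T_sq (x : E 𝕜) : ‖T 𝕜 x‖ ^ 2 ≤ 2 ^ 2 * (‖x 0‖ ^ 2 + ‖x 1‖ ^ 2) := by
  rw [norm_E, T_zero, T_one]
  have h := par (x 0) (x 1)
  nlinarith [sq_nonneg (‖x 0 - x 1‖ - ‖x 0 + x 1‖)]

/-- `e 0 = (1, 0)`, `e 1 = (0, 1)`. -/
noncomputable def e (i : Fin 2) : E 𝕜 := WithLp.toLp 1 (Pi.single i 1)

theorem norm_e (i : Fin 2) : ‖e 𝕜 i‖ ≤ 1 := by
  rw [norm_E]; fin_cases i <;> simp [e]

/-- `S ↦ ⟨(1, 1), S e₀⟩`. -/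
noncomputable def phi1 : (E 𝕜 →ₗ[𝕜] E 𝕜) →ₗ[𝕜] 𝕜 where
  toFun S := S (e 𝕜 0) 0 + S (e 𝕜 0) 1
  map_add' S S' := by simp only [LinearMap.add_apply, PiLp.add_apply]; ring
  map_smul' c S := by
    simp only [LinearMap.smul_apply, PiLp.smul_apply, smul_eq_mul, RingHom.id_apply]; ring

/-- `S ↦ ⟨(-1, 1), S e₁⟩`. -/
noncomputable def phi2 : (E 𝕜 →ₗ[𝕜] E 𝕜) →ₗ[𝕜] 𝕜 where
  toFun S := S (e 𝕜 1) 1 - S (e 𝕜 1) 0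
  map_add' S S' := by simp only [LinearMap.add_apply, PiLp.add_apply]; ring
  map_smul' c S := by
    simp only [LinearMap.smul_apply, PiLp.smul_apply, smul_eq_mul, RingHom.id_apply]; ring

theorem phi1_apply (S : E 𝕜 →ₗ[𝕜] E 𝕜) : phi1 𝕜 S = S (e 𝕜 0) 0 + S (e 𝕜 0) 1 := rfl
theorem phi2_apply (S : E 𝕜 →ₗ[𝕜] E 𝕜) : phi2 𝕜 S = S (e 𝕜 1) 1 - S (e 𝕜 1) 0 := rfl

theorem norm_phi1_le (S : E 𝕜 →ₗ[𝕜] E 𝕜) : ‖phi1 𝕜 S‖ ≤ pi2 S := by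
  refine le_trans ?_ (norm_apply_le_pi2 (adm_nonempty S) (e 𝕜 0) (norm_e 𝕜 0))
  rw [norm_E, phi1_apply]; exact norm_add_le _ _

theorem norm_phi2_le (S : E 𝕜 →ₗ[𝕜] E 𝕜) : ‖phi2 𝕜 S‖ ≤ pi2 S := by
  refine le_trans ?_ (norm_apply_le_pi2 (adm_nonempty S) (e 𝕜 1) (norm_e 𝕜 1))
  rw [norm_E, phi2_apply, add_comm]; exact norm_sub_le _ _

theorem phi1_T : phi1 𝕜 (T 𝕜) = 2 := by
  rw [phi1_apply, T_zero, T_one]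
  simp [e]; norm_num

theorem phi2_T : phi2 𝕜 (T 𝕜) = 2 := by
  rw [phi2_apply, T_zero, T_one]
  simp [e]; norm_num

theorem pi2_T : pi2 (T 𝕜) = 2 := by
  apply le_antisymm
  · exact pi2_le (mem_adm _ 2 (by norm_num) (norm_T_sq 𝕜))
  · have h := norm_phi1_le 𝕜 (T 𝕜)
    rw [phi1_T] at h
    simpa using h

theorem pi2_half_T : pi2 ((2 : 𝕜)⁻¹ • T 𝕜) ≤ 1 := by
  refine pi2_le (mem_adm _ 1 (by norm_num) fun x => ?_)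
  have h := norm_T_sq 𝕜 x
  rw [LinearMap.smul_apply, norm_smul, mul_pow]
  have h2 : ‖(2 : 𝕜)⁻¹‖ = 1 / 2 := by rw [norm_inv, RCLike.norm_ofNat]; norm_num
  rw [h2]
  nlinarith

theorem dualNormOne_of (φ : (E 𝕜 →ₗ[𝕜] E 𝕜) →ₗ[𝕜] 𝕜) (h : ∀ S, ‖φ S‖ ≤ pi2 S)
    (hT : φ (T 𝕜) = 2) : DualNormOne φ := by
  refine ⟨?_, ?_⟩
  · rintro _ ⟨S, hS, rfl⟩
    exact (h S).trans hS
  · intro b hb
    have := hb ⟨(2 : 𝕜)⁻¹ • T 𝕜, pi2_half_T 𝕜, rfl⟩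
    simpa [hT] using this

theorem phi_ne : phi1 𝕜 ≠ phi2 𝕜 := by
  intro h
  have h1 : phi1 𝕜 (LinearMap.id) = 1 := by rw [phi1_apply]; simp [e]
  -- a matrix unit separates the two functionals
  let S : E 𝕜 →ₗ[𝕜] E 𝕜 :=
    { toFun := fun x => WithLp.toLp 1 ![x 0, 0]
      map_add' := fun x y => by ext i; fin_cases i <;> simp
      map_smul' := fun c x => by ext i; fin_cases i <;> simp }
  have h2 : phi1 𝕜 S = 1 := by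
    rw [phi1_apply]; simp [S, e]
  have h3 : phi2 𝕜 S = 0 := by
    rw [phi2_apply]; simp [S, e]
  rw [h, h3] at h2
  exact zero_ne_one h2

end example_

theorem result (𝕜 : Type) [RCLike 𝕜] :
    ∃ (X : Type) (_ : NormedAddCommGroup X) (_ : NormedSpace 𝕜 X)
      (_ : FiniteDimensional 𝕜 X) (T : X →ₗ[𝕜] X),
      Function.Bijective T ∧
      ∃ φ₁ φ₂ : (X →ₗ[𝕜] X) →ₗ[𝕜] 𝕜, φ₁ ≠ φ₂ ∧ DualNormOne φ₁ ∧ DualNormOne φ₂ ∧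
        φ₁ T = (pi2 T : 𝕜) ∧ φ₂ T = (pi2 T : 𝕜) := by
  refine ⟨E 𝕜, inferInstance, inferInstance, inferInstance, T 𝕜, T_bijective 𝕜,
    phi1 𝕜, phi2 𝕜, phi_ne 𝕜, dualNormOne_of 𝕜 _ (norm_phi1_le 𝕜) (phi1_T 𝕜),
    dualNormOne_of 𝕜 _ (norm_phi2_le 𝕜) (phi2_T 𝕜), ?_, ?_⟩
  · rw [phi1_T, pi2_T]; exact (RCLike.ofReal_ofNat 2).symm
  · rw [phi2_T, pi2_T]; exact (RCLike.ofReal_ofNat 2).symm

end Pool.Agent.Results.MP_0c20fd_an.NonSmoothInvertible
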